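import Pool.Agent.WR4.Stmts

/-!
# Squad WR4 (MP_0f3fac_nt), row WNR: the window

On the typical integers up to `X` and for `x` near `X^(1/200)` the counts `FR a x` are close to
`2 σ wr m a x` on average.
-/

set_option autoImplicit false

namespace Pool.Agent.WR4.H66

open Pool.Agent.WIR Pool.Agent.WR2 Pool.Agent.WR3
open scoped BigOperators ENNReal Topology
open Filter

namespace WNR

lemma three_pow_le (K : ℕ) : 3 ^ (3 * K / 5) ≤ 2 ^ K := by
  have h1 : 5 * (3 * K / 5) ≤ 3 * K := Nat.mul_div_le (3 * K) 5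
  have h2 : (3 ^ (3 * K / 5)) ^ 5 ≤ (2 ^ K) ^ 5 := by
    calc (3 ^ (3 * K / 5)) ^ 5 = 3 ^ (5 * (3 * K / 5)) := by rw [← pow_mul, mul_comm]
      _ ≤ 3 ^ (3 * K) := Nat.pow_le_pow_right (by norm_num) h1
      _ = 27 ^ K := by rw [pow_mul]; norm_num
      _ ≤ 32 ^ K := Nat.pow_le_pow_left (by norm_num) K
      _ = (2 ^ K) ^ 5 := by rw [← pow_mul, mul_comm K 5, pow_mul]; norm_num
  exact (Nat.pow_le_pow_iff_left (by norm_num)).1 h2

lemma wr_per (m t a : ℕ) (h : m ≤ t) : wr m (a + 3 ^ t) = wr m a := by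
  unfold wr
  have h1 : ((3 ^ t : ℕ) : ZMod (3 ^ m)) = 0 := by
    rw [ZMod.natCast_eq_zero_iff]
    exact pow_dvd_pow 3 h
  rw [Nat.cast_add, h1, add_zero]

lemma SH_per (hS : SmuStmt) (t a : ℕ) (x : ℝ) (ha : 0 < a) : SH t (a + 3 ^ t) x = SH t a x := by
  unfold SH
  refine Finset.sum_congr rfl fun τ hτ => Finset.sum_congr rfl fun l hl => ?_
  have h1 : l ≤ t := by
    have h2 := Finset.mem_range.1 hτ
    have h3 := Finset.mem_range.1 hl
    omega
  have h4 : a + 3 ^ t = a + 3 ^ (t - l) * 3 ^ l := by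
    rw [← pow_add, Nat.sub_add_cancel h1]
  rw [h4, hS.2.1 τ l a _ ha]

lemma LR_nonneg (t a : ℕ) (x : ℝ) : 0 ≤ LR t a x :=
  Finset.sum_nonneg fun _ _ => Nat.cast_nonneg _

/-- the bound `60 log x ≤ (3 K/5) log 2` -/
lemma log_bound (X : ℕ) (x : ℝ) (hx : 1 ≤ x) (h : x ^ 200 ≤ X)
    (hK : 4 ≤ Nat.log 2 X) :
    60 * Real.log x ≤ ((3 * Nat.log 2 X / 5 : ℕ) : ℝ) * Real.log 2 := by
  set K := Nat.log 2 X with hKd
  have l2 : 0 < Real.log 2 := Real.log_pos (by norm_num)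
  have h1 : (X : ℝ) ≤ 2 ^ (K + 1) := by
    have h2 : X < 2 ^ (K + 1) := Nat.lt_pow_succ_log_self (by norm_num) X
    exact_mod_cast h2.le
  have h2 : 200 * Real.log x ≤ (K + 1) * Real.log 2 := by
    have h3 : Real.log (x ^ 200) ≤ Real.log (2 ^ (K + 1)) :=
      Real.log_le_log (by positivity) (h.trans h1)
    rw [Real.log_pow, Real.log_pow] at h3
    push_cast at h3
    exact h3
  have h3 : 3 * K ≤ 5 * (3 * K / 5) + 4 := by omega
  have h4 : (3 : ℝ) * K ≤ 5 * ((3 * K / 5 : ℕ) : ℝ) + 4 := by exact_mod_cast h3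
  have h5 : (4 : ℝ) ≤ K := by exact_mod_cast hK
  have h6 : (3 / 10 : ℝ) * (K + 1) ≤ ((3 * K / 5 : ℕ) : ℝ) := by linarith
  have h7 := mul_le_mul_of_nonneg_right h6 l2.le
  linarith

end WNR

/-- **WNR** -/
theorem wnr (h1 : SlsStmt) (h2 : LngStmt) (h3 : ShtStmt) (h4 : PrdStmt) (h5 : SmuStmt)
    (_h6 : WrbStmt) : WnrStmt := by
  intro σ hσ ε hε
  obtain ⟨m0, hm0⟩ := h3 σ hσ (ε / 4) (by positivity)
  obtain ⟨X1, hX1⟩ := h2 (ε / 2) (by positivity)
  refine ⟨m0, fun m hm => ?_⟩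
  obtain ⟨x0, hx0, hsht⟩ := hm0 m hm
  refine ⟨max X1 (max ⌈(2 * x0) ^ 200⌉₊ (2 ^ (2 * m + 4))), fun X hX x hx hxX hXx => ?_⟩
  have e1 : X1 ≤ X := (le_max_left _ _).trans hX
  have e2 : ⌈(2 * x0) ^ 200⌉₊ ≤ X := (le_max_left _ _).trans ((le_max_right _ _).trans hX)
  have e3 : 2 ^ (2 * m + 4) ≤ X := (le_max_right _ _).trans ((le_max_right _ _).trans hX)
  have hXpos : 0 < X := lt_of_lt_of_le (by positivity) e3
  have hK : 2 * m + 4 ≤ Nat.log 2 X := Nat.le_log_of_pow_le (by norm_num) e3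
  have hx0x : x0 ≤ x := by
    have a1 : (2 * x0) ^ 200 ≤ (X : ℝ) := Nat.ceil_le.1 e2
    have a2 : (2 * x0) ^ 200 ≤ (2 * x) ^ 200 := a1.trans hXx
    have a3 : 2 * x0 ≤ 2 * x :=
      (pow_le_pow_iff_left₀ (by linarith) (by linarith) (by norm_num)).1 a2
    linarith
  set t := 3 * Nat.log 2 X / 5 with ht
  have hmt : m ≤ t := by omega
  have hlog := WNR.log_bound X x hx hxX (by omega)
  rw [← ht] at hlog
  have hs := hsht x t t hx0x hlog le_rfl
  have hl := hX1 X e1 x hx hxX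
  rw [← ht] at hl
  have h3t : 3 ^ t ≤ X := (WNR.three_pow_le _).trans (Nat.pow_log_le_self 2 hXpos.ne')
  have h3t' : (3 : ℝ) ^ t ≤ X := by exact_mod_cast h3t
  have hper : ∀ a, 0 < a → |SH t (a + 3 ^ t) x - 2 * σ * x * wr m (a + 3 ^ t)|
      = |SH t a x - 2 * σ * x * wr m a| := fun a ha => by
    rw [WNR.wr_per m t a hmt, WNR.SH_per h5 t a x ha]
  have hp := (h4 t (fun a => |SH t a x - 2 * σ * x * wr m a|) (fun a => abs_nonneg _) hper).1 X
    (Nat.cast_nonneg X)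
  rw [Nat.floor_natCast] at hp
  have hTF : TF X ⊆ Finset.Icc 1 X := by
    classical
    intro a ha
    unfold TF at ha
    exact (Finset.mem_filter.1 ha).1
  have b1 : GX X (fun a => 2 * σ * wr m a) x
      ≤ ∑ a ∈ TF X, (|SH t a x - 2 * σ * x * wr m a| + LR t a x) := by
    unfold GX
    refine Finset.sum_le_sum fun a ha => ?_
    have ha1 : 0 < a := (Finset.mem_Icc.1 (hTF ha)).1
    have c1 := h1 a ha1 t x
    have c2 : FR a x - 2 * σ * wr m a * x = (SH t a x - 2 * σ * x * wr m a) + LR t a x := by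
      rw [c1]; ring
    rw [c2]
    refine (abs_add_le _ _).trans ?_
    rw [abs_of_nonneg (WNR.LR_nonneg t a x)]
  rw [Finset.sum_add_distrib] at b1
  have b2 : ∑ a ∈ TF X, |SH t a x - 2 * σ * x * wr m a|
      ≤ ∑ a ∈ Finset.Icc 1 X, |SH t a x - 2 * σ * x * wr m a| :=
    Finset.sum_le_sum_of_subset_of_nonneg hTF fun a _ _ => abs_nonneg _
  have b3 : ((X : ℝ) / 3 ^ t + 1) * ∑ a ∈ Finset.Icc 1 (3 ^ t), |SH t a x - 2 * σ * x * wr m a|
      ≤ ε / 2 * X * x := by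
    calc ((X : ℝ) / 3 ^ t + 1) * ∑ a ∈ Finset.Icc 1 (3 ^ t), |SH t a x - 2 * σ * x * wr m a|
        ≤ ((X : ℝ) / 3 ^ t + 1) * (ε / 4 * x * 3 ^ t) :=
          mul_le_mul_of_nonneg_left hs (by positivity)
      _ = ε / 4 * x * (X + 3 ^ t) := by field_simp
      _ ≤ ε / 4 * x * (X + X) := by
          have : 0 ≤ ε / 4 * x := by positivity
          exact mul_le_mul_of_nonneg_left (by linarith) this
      _ = ε / 2 * X * x := by ring
  have b4 : ε / 2 * X * x + ε / 2 * X * x = ε * X * x := by ring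
  linarith [hp, b1, b2, b3, hl]

end Pool.Agent.WR4.H66
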